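import Mathlib
import Pool.Agent.Y1.CT.LDefs

/-!
# Zeta functions and ranks of higher Chow groups of products with abelian varieties: definitions
-/

set_option autoImplicit false

namespace Pool.Agent.Y156.Z

open Polynomial Pool.Agent.Y156.L Pool.Agent.Y1.CT Pool.Agent.Y1.CT.L

/-- The function `∏ (1 - ρ Q ^ (-s)) ^ (- m ρ)`, `m` a function with finite support. This is the zeta
function of a scheme of finite type over the field with `Q` elements, continued to `ℂ`, if `m ρ` is
the alternating sum of the multiplicities of the eigenvalue `ρ` of Frobenius on the cohomology with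
compact supports (Grothendieck). -/
noncomputable def zeta (Q : ℕ) (m : ℂ →₀ ℤ) (s : ℂ) : ℂ :=
  ∏ ρ ∈ m.support, (1 - ρ * (Q : ℂ) ^ (-s)) ^ (- m ρ)

/-- The alternating sum of the multiplicities of the eigenvalue `α` of Frobenius on the cohomology of
the abelian variety `A`: the dimension of the generalised eigenspace, with the sign `-1` if
`|α| = Q ^ (k / 2)` with an odd number `k`, since it is then contained in `H^k(A)` (Weil). -/
noncomputable def multiplicity (A : AbelianData ℂ) (Q : ℕ) (α : ℂ) : ℤ :=
  open scoped Classical in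
  (if ∃ k : ℕ, Odd k ∧ ‖α‖ ^ 2 = (Q : ℝ) ^ k then -1 else 1) *
    (Module.finrank ℂ (Module.End.maxGenEigenspace (A.frobH.toLinearMap : Module.End ℂ A.H) α) : ℤ)

/-- The alternating multiplicities `m'` of `A × U` are given by those of `A` and `m` of `U` (Kunneth
formula). -/
def IsProductOf (A : AbelianData ℂ) (Q : ℕ) (m m' : ℂ →₀ ℤ) : Prop :=
  ∀ β : ℂ, m' β = ∑ ρ ∈ m.support, m ρ * multiplicity A Q (β / ρ)

/-- The numbers in the support of `m` are roots of a nonzero rational polynomial, all of whose complex
roots are independent of the fields `K i`. -/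
def SupportIndependent (m : ℂ →₀ ℤ) {I : Type} (K : I → Type) [∀ i, Field (K i)] : Prop :=
  ∃ χ : ℚ[X], χ ≠ 0 ∧ (∀ ρ : ℂ, aeval ρ χ = 0 → Independent K ρ) ∧ ∀ ρ ∈ m.support, aeval ρ χ = 0

variable {A : AbelianData ℂ}

/-- The higher Chow group `CH_n(U, i)`, with rational coefficients, for a scheme `U` of dimension `d`:
in the grading of `RelData` by codimensions this is the group in the bidegree
`(2 (d - n) - i, d - n)`. -/
def chow (T : RelData A) (d n : ℤ) (i : ℕ) : Submodule ℚ T.N := T.grN (2 * (d - n) - i) (d - n)

/-- The higher Chow group `CH_n(A × U, i)`, with rational coefficients. -/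
def chowProduct (T : RelData A) (d n : ℤ) (i : ℕ) : Submodule ℚ T.M :=
  T.grM (2 * (A.dim + d - n) - i) (A.dim + d - n)

/-- The formula of Soule for a family of `ℚ`-vector spaces `G i` and a meromorphic function `ζ` at
the point `n`: the spaces are finite dimensional, almost all of them vanish, and the order of `ζ` at
`n` is minus the alternating sum of the dimensions. -/
def Formula {W : Type} [AddCommGroup W] [Module ℚ W] (G : ℕ → Submodule ℚ W) (ζ : ℂ → ℂ)
    (n : ℤ) : Prop :=
  (∀ i, FiniteDimensional ℚ (G i)) ∧ {i | G i ≠ ⊥}.Finite ∧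
    meromorphicOrderAt ζ (n : ℂ) =
      ((-∑ᶠ i : ℕ, (-1) ^ i * (Module.finrank ℚ (G i) : ℤ) : ℤ) : WithTop ℤ)

/-- The dimension of `U` is at most `d`: the higher Chow groups `CH_n(U, i)` and the multiplicity of
`Q ^ n` are zero for `n > d`. -/
def HasDimension (T : RelData A) (Q : ℕ) (d : ℤ) (m : ℂ →₀ ℤ) : Prop :=
  ∀ n : ℤ, d < n → m ((Q : ℂ) ^ n) = 0 ∧ ∀ i, chow T d n i = ⊥

/-- `ZetaTimes K q f`: for every abelian variety `A` as in `IsAbelian` over the field with `Q = q ^ s`
elements and all `T` (the higher Chow groups) relative to any scheme `U` of dimension `d`, with the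
formal properties, pure and with eigenvalues independent of the fields `K i`, and with independent
eigenvalues on the cohomology with compact supports: (1) if the formula of Soule holds for `U` at the
points `n - k`, `0 ≤ k ≤ dim A`, then it holds for `A × U` at `n`; (2) if it holds for `A × U` at all
points, then it holds for `U` at all points. -/
def ZetaTimes {I : Type} (K : I → Type) [∀ i, Field (K i)] (q : ℕ) (f : I → ℤ[X]) : Prop :=
  ∀ (A : AbelianData ℂ) (s : ℕ), IsAbelian A q s f →
    ∀ T : RelData A, IsRel (q ^ s) T → T.IsPure (q ^ s) → HasIndependent T (q ^ s) K →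
      ∀ (m m' : ℂ →₀ ℤ), SupportIndependent m K → IsProductOf A (q ^ s) m m' → ∀ d : ℤ,
        (∀ n : ℤ, (∀ k : ℕ, k ≤ A.dim → Formula (chow T d (n - k)) (zeta (q ^ s) m) (n - k)) →
          Formula (chowProduct T d n) (zeta (q ^ s) m') n) ∧
        (HasDimension T (q ^ s) d m →
          (∀ n : ℤ, Formula (chowProduct T d n) (zeta (q ^ s) m') n) →
            ∀ n : ℤ, Formula (chow T d n) (zeta (q ^ s) m) n)

end Pool.Agent.Y156.Z
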