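import Mathlib
import Pool.Agent.Y156.Z.Defs

/-!
# The orders of the zeta function
-/

set_option autoImplicit false

namespace Pool.Agent.Y156.Z

open Complex

variable {Q : ℕ} (hQ : 1 < Q)

include hQ

theorem log_ne : Complex.log (Q : ℂ) ≠ 0 := by
  rw [← Complex.natCast_log]
  exact_mod_cast (Real.log_pos (by exact_mod_cast hQ)).ne'

theorem cast_ne : (Q : ℂ) ≠ 0 := by
  exact_mod_cast (by omega : Q ≠ 0)

theorem factor_differentiable (ρ : ℂ) :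
    Differentiable ℂ fun s : ℂ => 1 - ρ * (Q : ℂ) ^ (-s) := by
  intro s
  have h1 : DifferentiableAt ℂ (fun s : ℂ => (Q : ℂ) ^ (-s)) s :=
    DifferentiableAt.const_cpow differentiableAt_id.neg (Or.inl (cast_ne hQ))
  exact (differentiableAt_const _).sub (h1.const_mul ρ)

theorem factor_analytic (ρ z : ℂ) : AnalyticAt ℂ (fun s : ℂ => 1 - ρ * (Q : ℂ) ^ (-s)) z :=
  (factor_differentiable hQ ρ).analyticAt z

theorem factor_order (ρ : ℂ) (n : ℤ) [Decidable (ρ = (Q : ℂ) ^ n)] :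
    meromorphicOrderAt (fun s : ℂ => 1 - ρ * (Q : ℂ) ^ (-s)) (n : ℂ) =
      if ρ = (Q : ℂ) ^ n then 1 else 0 := by
  have hQ0 := cast_ne hQ
  have hval : (Q : ℂ) ^ (-(n : ℂ)) = ((Q : ℂ) ^ n)⁻¹ := by
    rw [cpow_neg, cpow_intCast]
  rw [(factor_analytic hQ ρ n).meromorphicOrderAt_eq]
  by_cases h : ρ = (Q : ℂ) ^ n
  · rw [if_pos h]
    have hρ : ρ ≠ 0 := by
      rw [h]
      exact zpow_ne_zero _ hQ0
    have h0 : (fun s : ℂ => 1 - ρ * (Q : ℂ) ^ (-s)) (n : ℂ) = 0 := by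
      change 1 - ρ * (Q : ℂ) ^ (-(n : ℂ)) = 0
      rw [hval, h, mul_inv_cancel₀ (zpow_ne_zero _ hQ0), sub_self]
    have hderiv : deriv (fun s : ℂ => 1 - ρ * (Q : ℂ) ^ (-s)) (n : ℂ) ≠ 0 := by
      have h1 : HasDerivAt (fun s : ℂ => (Q : ℂ) ^ (-s))
          ((Q : ℂ) ^ (-(n : ℂ)) * Complex.log Q * (-1)) (n : ℂ) :=
        HasDerivAt.const_cpow (hasDerivAt_id (n : ℂ)).neg (Or.inl hQ0)
      have h2 := (h1.const_mul ρ).const_sub 1
      rw [h2.deriv]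
      have h3 : (Q : ℂ) ^ (-(n : ℂ)) ≠ 0 := by
        rw [hval]
        exact inv_ne_zero (zpow_ne_zero _ hQ0)
      exact neg_ne_zero.2 (mul_ne_zero hρ (mul_ne_zero (mul_ne_zero h3 (log_ne hQ))
        (neg_ne_zero.2 one_ne_zero)))
    have h3 := (factor_analytic hQ ρ n).analyticOrderAt_deriv_add_one
    have h4 : analyticOrderAt (deriv fun s : ℂ => 1 - ρ * (Q : ℂ) ^ (-s)) (n : ℂ) = 0 :=
      (factor_analytic hQ ρ n).deriv.analyticOrderAt_eq_zero.2 hderiv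
    have h0' : 1 - ρ * (Q : ℂ) ^ (-(n : ℂ)) = 0 := h0
    rw [h4, zero_add, h0'] at h3
    simp only [sub_zero] at h3
    rw [← h3]
    rfl
  · rw [if_neg h]
    have h0 : (fun s : ℂ => 1 - ρ * (Q : ℂ) ^ (-s)) (n : ℂ) ≠ 0 := by
      change 1 - ρ * (Q : ℂ) ^ (-(n : ℂ)) ≠ 0
      rw [hval]
      intro h1
      apply h
      have h2 : ρ * ((Q : ℂ) ^ n)⁻¹ = 1 := (sub_eq_zero.1 h1).symm
      rwa [mul_inv_eq_one₀ (zpow_ne_zero _ hQ0)] at h2
    rw [(factor_analytic hQ ρ n).analyticOrderAt_eq_zero.2 h0]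
    rfl

/-- The order of the zeta function at an integer. -/
theorem zeta_order (m : ℂ →₀ ℤ) (n : ℤ) :
    meromorphicOrderAt (zeta Q m) (n : ℂ) = ((-m ((Q : ℂ) ^ n) : ℤ) : WithTop ℤ) := by
  classical
  have h1 : zeta Q m = ∏ ρ ∈ m.support, (fun s : ℂ => 1 - ρ * (Q : ℂ) ^ (-s)) ^ (- m ρ) := by
    funext s
    rw [zeta, Finset.prod_apply]
    rfl
  have hmer : ∀ ρ : ℂ, MeromorphicAt (fun s : ℂ => 1 - ρ * (Q : ℂ) ^ (-s)) (n : ℂ) :=
    fun ρ => (factor_analytic hQ ρ n).meromorphicAt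
  rw [h1, meromorphicOrderAt_prod (fun ρ _ => (hmer ρ).zpow _)]
  have h2 : ∀ ρ ∈ m.support,
      meromorphicOrderAt ((fun s : ℂ => 1 - ρ * (Q : ℂ) ^ (-s)) ^ (- m ρ)) (n : ℂ) =
        (((if ρ = (Q : ℂ) ^ n then - m ρ else 0 : ℤ)) : WithTop ℤ) := by
    intro ρ _
    rw [meromorphicOrderAt_zpow (hmer ρ), factor_order hQ ρ n]
    by_cases h : ρ = (Q : ℂ) ^ n
    · rw [if_pos h, if_pos h, mul_one]
    · rw [if_neg h, if_neg h, mul_zero]
      rfl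
  rw [Finset.sum_congr rfl h2, ← WithTop.coe_sum]
  congr 1
  rw [Finset.sum_ite_eq' m.support ((Q : ℂ) ^ n) fun ρ => - m ρ]
  by_cases h : (Q : ℂ) ^ n ∈ m.support
  · rw [if_pos h]
  · rw [if_neg h, Finsupp.notMem_support_iff.1 h, neg_zero]

end Pool.Agent.Y156.Z
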