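import Mathlib
import Pool.Agent.Y156.Z.Zeta
import Pool.Agent.Y1.CT.LThms

/-!
# Zeta functions and ranks of higher Chow groups of products with abelian varieties
-/

set_option autoImplicit false
set_option linter.unusedSectionVars false
set_option linter.unusedVariables false

namespace Pool.Agent.Y156.Z

open Module Polynomial Pool.Agent.Y156.L Pool.Agent.Y1.CT Pool.Agent.Y1.CT.L

section classes

variable {A : AbelianData ℂ} {q s : ℕ} {I : Type} {f : I → ℤ[X]} {J : Type} [Fintype J]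
  {c : J → ℕ} {D E : J → A.CH}

/-- The classes `E t` of codimension `l` are a basis of `NK A l`. -/
theorem finrank_NK (hA : IsAbelian A q s f) (h : IsDual A c D E)
    (hE : ∀ j, A.cl (E j) ∈ NK A (A.dim - c j))
    (hN : ∀ n, NK A n ≤ Submodule.span ℂ {a | ∃ j, A.dim - c j = n ∧ a = A.cl (E j)}) (l : ℕ)
    [DecidablePred fun j => A.dim - c j = l] :
    finrank ℂ (NK A l) = (Finset.univ.filter fun j => A.dim - c j = l).card := by
  classical
  have hli : LinearIndependent ℂ fun j : {j // A.dim - c j = l} => A.cl (E j.1) := by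
    rw [Fintype.linearIndependent_iff]
    intro g hg i
    have h1 : A.tr (A.cl (D i.1) * ∑ j : {j // A.dim - c j = l}, g j • A.cl (E j.1)) = g i := by
      rw [Finset.mul_sum, map_sum, Finset.sum_eq_single i]
      · rw [mul_smul_comm, map_smul, ← map_mul, hA.tr_cl, h.eq, Rat.cast_one, smul_eq_mul, mul_one]
      · intro j _ hj
        rw [mul_smul_comm, map_smul, ← map_mul, hA.tr_cl,
          h.ne i.1 j.1 fun h2 => hj (Subtype.ext h2.symm), Rat.cast_zero, smul_zero]
      · intro h2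
        exact absurd (Finset.mem_univ _) h2
    rw [← h1, hg, mul_zero, map_zero]
  have hspan : NK A l = Submodule.span ℂ (Set.range fun j : {j // A.dim - c j = l} =>
      A.cl (E j.1)) := by
    apply le_antisymm
    · refine (hN l).trans (Submodule.span_mono ?_)
      rintro _ ⟨j, hj, rfl⟩
      exact ⟨⟨j, hj⟩, rfl⟩
    · refine Submodule.span_le.2 ?_
      rintro _ ⟨⟨j, hj⟩, rfl⟩
      have h1 := hE j
      rw [hj] at h1
      exact h1
  rw [hspan, finrank_span_eq_card hli, Fintype.card_subtype]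

variable {r : ℕ} (b : Basis (Fin r) ℂ A.H) (α : Fin r → ℂ)
  (hb : ∀ t, A.frobH (b t) = α t • b t)

include hb

/-- An element of a generalised eigenspace is a combination of eigenvectors in the basis. -/
theorem maxGen_repr {μ : ℂ} {x : A.H}
    (hx : x ∈ Module.End.maxGenEigenspace (A.frobH.toLinearMap : Module.End ℂ A.H) μ) (t : Fin r)
    (ht : b.repr x t ≠ 0) : α t = μ := by
  obtain ⟨k, hk⟩ := Module.End.mem_maxGenEigenspace _ _ _ |>.1 hx
  have hb' : ∀ t, ((A.frobH.toLinearMap : Module.End ℂ A.H) - μ • (1 : Module.End ℂ A.H)) (b t) =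
      (α t - μ) • b t := by
    intro t
    rw [LinearMap.sub_apply, LinearMap.smul_apply, Module.End.one_apply, sub_smul]
    congr 1
    exact hb t
  have hpow : ∀ (k : ℕ) (t : Fin r),
      (((A.frobH.toLinearMap : Module.End ℂ A.H) - μ • (1 : Module.End ℂ A.H)) ^ k) (b t) =
        (α t - μ) ^ k • b t := by
    intro k t
    induction k with
    | zero => simp
    | succ k ih => rw [pow_succ, Module.End.mul_apply, hb', map_smul, ih, smul_smul, pow_succ,
        mul_comm]
  have h1 : (((A.frobH.toLinearMap : Module.End ℂ A.H) - μ • (1 : Module.End ℂ A.H)) ^ k) x =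
      ∑ t, (b.repr x t * (α t - μ) ^ k) • b t := by
    conv_lhs => rw [← b.sum_repr x]
    rw [map_sum]
    refine Finset.sum_congr rfl fun t _ => ?_
    rw [map_smul, hpow, smul_smul]
  rw [h1] at hk
  have h2 := Fintype.linearIndependent_iff.1 b.linearIndependent _ hk t
  have h3 := (mul_eq_zero.1 h2).resolve_left ht
  rcases Nat.eq_zero_or_pos k with h0 | h0
  · rw [h0, pow_zero] at h3
    exact absurd h3 one_ne_zero
  · exact sub_eq_zero.1 ((pow_eq_zero_iff h0.ne').1 h3)

end classes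

section multiplicities

variable {A : AbelianData ℂ} {q s : ℕ} {I : Type} {f : I → ℤ[X]} {J : Type} [Fintype J]
  {c : J → ℕ} {D E : J → A.CH} {K : I → Type} [∀ i, Field (K i)]

/-- The multiplicities of `A × U` at the powers of `Q`. -/
theorem mult_product (hA : IsAbelian A q s f) (hQ : 1 < q ^ s) {r : ℕ}
    (b : Basis (Fin r) ℂ A.H) (α : Fin r → ℂ) (hb : ∀ t, A.frobH (b t) = α t • b t)
    (hgood : ∀ (χ : ℚ[X]), χ ≠ 0 → (∀ ρ : ℂ, aeval ρ χ = 0 → Independent K ρ) → ∀ ρ : ℂ,
      aeval ρ χ = 0 → ∀ t (c : ℤ), α t * ρ = ((q ^ s : ℕ) : ℂ) ^ c →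
        ∃ l : ℕ, α t = ((q ^ s : ℕ) : ℂ) ^ l ∧ b t ∈ NK A l)
    (h1 : ∀ t (c : ℤ), α t = ((q ^ s : ℕ) : ℂ) ^ c →
      ∃ l : ℕ, α t = ((q ^ s : ℕ) : ℂ) ^ l ∧ b t ∈ NK A l)
    (h : IsDual A c D E) (hE : ∀ j, A.cl (E j) ∈ NK A (A.dim - c j))
    (hN : ∀ n, NK A n ≤ Submodule.span ℂ {a | ∃ j, A.dim - c j = n ∧ a = A.cl (E j)})
    {m m' : ℂ →₀ ℤ} (hm : SupportIndependent m K) (hm' : IsProductOf A (q ^ s) m m') (n : ℤ) :
    m' (((q ^ s : ℕ) : ℂ) ^ n) =
      ∑ t, m (((q ^ s : ℕ) : ℂ) ^ (n - ((A.dim : ℤ) - c t))) := by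
  classical
  set Q : ℂ := ((q ^ s : ℕ) : ℂ) with hQdef
  have hQ0 : Q ≠ 0 := by
    rw [hQdef]
    exact_mod_cast (by omega : q ^ s ≠ 0)
  have hinj : Function.Injective fun l : ℤ => Q ^ l := by
    intro l l' hl
    have h2 : ‖Q ^ l‖ = ‖Q ^ l'‖ := congrArg norm hl
    rw [norm_zpow, norm_zpow, hQdef, Complex.norm_natCast] at h2
    exact zpow_right_injective₀ (by positivity) (by exact_mod_cast hQ.ne') h2
  -- the eigenspaces for powers of `Q`
  have hspace : ∀ l : ℕ, Module.End.maxGenEigenspace (A.frobH.toLinearMap : Module.End ℂ A.H)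
      (Q ^ l) = NK A l := by
    intro l
    apply le_antisymm
    · intro x hx
      rw [← b.sum_repr x]
      refine Submodule.sum_mem _ fun t _ => ?_
      by_cases ht : b.repr x t = 0
      · rw [ht, zero_smul]
        exact Submodule.zero_mem _
      · have h2 := maxGen_repr b α hb hx t ht
        obtain ⟨l', h3, h4⟩ := h1 t l (by rw [h2]; exact (zpow_natCast _ _).symm)
        have h5 : (l : ℤ) = l' := by
          apply hinj
          change Q ^ (l : ℤ) = Q ^ (l' : ℤ)
          rw [zpow_natCast, zpow_natCast, ← h2, h3]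
        have h6 : l = l' := by exact_mod_cast h5
        subst h6
        exact Submodule.smul_mem _ _ h4
    · intro x hx
      refine Module.End.mem_maxGenEigenspace _ _ _ |>.2 ⟨1, ?_⟩
      rw [pow_one, LinearMap.sub_apply, LinearMap.smul_apply, Module.End.one_apply, sub_eq_zero]
      have h2 := NK_eigen hA hx
      exact h2
  have hmult : ∀ l : ℕ, multiplicity A (q ^ s) (Q ^ l) =
      ((Finset.univ.filter fun j => A.dim - c j = l).card : ℤ) := by
    intro l
    rw [multiplicity, if_neg, one_mul]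
    · rw [← finrank_NK hA h hE hN l]
      have h2 := hspace l
      rw [h2]
    · rintro ⟨k, hk, h2⟩
      rw [hQdef, norm_pow, Complex.norm_natCast, ← pow_mul] at h2
      have h3 : l * 2 = k := Nat.pow_right_injective hQ (by exact_mod_cast h2)
      rw [← h3, Nat.odd_mul] at hk
      exact (by decide : ¬ Odd 2) hk.2
  obtain ⟨χ, hχ, hroots, hsupp⟩ := hm
  have hterm : ∀ ρ ∈ m.support, m ρ * multiplicity A (q ^ s) (Q ^ n / ρ) =
      ∑ t, if ρ = Q ^ (n - ((A.dim : ℤ) - c t)) then m ρ else 0 := by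
    intro ρ hρ
    have hρ0 : ρ ≠ 0 := (hroots ρ (hsupp ρ hρ)).1
    have hle : ∀ t, (((A.dim - c t : ℕ) : ℤ)) = (A.dim : ℤ) - c t := fun t => by
      have := h.le t
      omega
    by_cases hex : ∃ l : ℕ, Q ^ n / ρ = Q ^ l
    · obtain ⟨l, hl⟩ := hex
      rw [hl, hmult, Finset.card_eq_sum_ones, Nat.cast_sum, Finset.mul_sum, Finset.sum_filter]
      refine Finset.sum_congr rfl fun t _ => ?_
      have hρl : ρ = Q ^ (n - (l : ℤ)) := by
        rw [zpow_sub₀ hQ0, zpow_natCast, ← hl]
        field_simp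
      have hiff : (A.dim - c t = l) ↔ ρ = Q ^ (n - ((A.dim : ℤ) - c t)) := by
        rw [hρl]
        constructor
        · intro h2
          rw [← hle t, h2]
        · intro h2
          have h3 := hinj h2
          have h4 := hle t
          omega
      by_cases h2 : A.dim - c t = l
      · rw [if_pos h2, if_pos (hiff.1 h2), Nat.cast_one, mul_one]
      · rw [if_neg h2, if_neg fun h3 => h2 (hiff.2 h3)]
    · have h2 : multiplicity A (q ^ s) (Q ^ n / ρ) = 0 := by
        rw [multiplicity]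
        refine mul_eq_zero_of_right _ ?_
        have h3 : Module.End.maxGenEigenspace (A.frobH.toLinearMap : Module.End ℂ A.H)
            (Q ^ n / ρ) = ⊥ := by
          rw [Submodule.eq_bot_iff]
          intro x hx
          by_contra hx0
          obtain ⟨t, ht⟩ : ∃ t, b.repr x t ≠ 0 := by
            by_contra hcon
            push Not at hcon
            apply hx0
            rw [← b.sum_repr x]
            exact Finset.sum_eq_zero fun t _ => by rw [hcon t, zero_smul]
          have h4 := maxGen_repr b α hb hx t ht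
          obtain ⟨l, h5, -⟩ := hgood χ hχ hroots ρ (hsupp ρ hρ) t n (by
            rw [h4]
            field_simp)
          exact hex ⟨l, by rw [← h4, h5]⟩
        rw [h3, finrank_bot]
        rfl
      rw [h2, mul_zero]
      symm
      refine Finset.sum_eq_zero fun t _ => ?_
      rw [if_neg]
      intro h3
      apply hex
      refine ⟨A.dim - c t, ?_⟩
      rw [h3, ← zpow_natCast, hle t, ← zpow_sub₀ hQ0]
      congr 1
      ring
  rw [hm', Finset.sum_congr rfl hterm, Finset.sum_comm]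
  refine Finset.sum_congr rfl fun t _ => ?_
  rw [Finset.sum_ite_eq' m.support]
  by_cases h2 : Q ^ (n - ((A.dim : ℤ) - c t)) ∈ m.support
  · rw [if_pos h2]
  · rw [if_neg h2, Finsupp.notMem_support_iff.1 h2]

end multiplicities

section groups

variable {A : AbelianData ℂ} {J : Type} [Fintype J] {c : J → ℕ} {D E : J → A.CH} {Q : ℕ}
  {T : RelData A}

theorem chow_index (d n : ℤ) (i : ℕ) (t : J) :
    T.grN (2 * (A.dim + d - n) - i - 2 * c t) (A.dim + d - n - c t) =
      chow T d (n - ((A.dim : ℤ) - c t)) i := by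
  unfold chow
  congr 1 <;> ring

theorem pair_mem_chow (hT : IsRel Q T) (h : IsDual A c D E) {d n : ℤ} {i : ℕ} {x : T.M}
    (hx : x ∈ chowProduct T d n i) (t : J) :
    T.pair (E t) x ∈ chow T d (n - ((A.dim : ℤ) - c t)) i := by
  have h1 := hT.pair_mem (c := c t) (d := A.dim - c t) (by have := h.le t; omega) (h.right t) hx
  rwa [chow_index] at h1

theorem times_mem_chow (hT : IsRel Q T) (h : IsDual A c D E) {d n : ℤ} {i : ℕ} (t : J) {y : T.N}
    (hy : y ∈ chow T d (n - ((A.dim : ℤ) - c t)) i) :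
    T.times (D t) y ∈ chowProduct T d n i := by
  have h1 := hT.times_mem (h.left t) hy
  have e1 : 2 * (d - (n - ((A.dim : ℤ) - c t))) - i + 2 * c t = 2 * (A.dim + d - n) - i := by ring
  have e2 : d - (n - ((A.dim : ℤ) - c t)) + c t = A.dim + d - n := by ring
  rw [e1, e2] at h1
  exact h1

/-- The decomposition of the higher Chow groups of `A × U`. -/
noncomputable def decomp (hT : IsRel Q T) (h : IsDual A c D E)
    (hexp : ∀ (i j : ℤ), ∀ x ∈ T.grM i j, x = ∑ t, T.times (D t) (T.pair (E t) x)) (d n : ℤ)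
    (i : ℕ) : chowProduct T d n i ≃ₗ[ℚ] (∀ t : J, chow T d (n - ((A.dim : ℤ) - c t)) i) where
  toFun x t := ⟨T.pair (E t) x, pair_mem_chow hT h x.2 t⟩
  map_add' x y := by
    funext t
    exact Subtype.ext (map_add _ _ _)
  map_smul' a x := by
    funext t
    exact Subtype.ext (map_smul _ _ _)
  invFun z := ⟨∑ t, T.times (D t) (z t), Submodule.sum_mem _ fun t _ =>
    times_mem_chow hT h t (z t).2⟩
  left_inv x := Subtype.ext (hexp _ _ x.1 x.2).symm
  right_inv z := by
    funext t
    exact Subtype.ext (pair_sum hT h t fun t => (z t : T.N))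

theorem chowProduct_eq_bot (hT : IsRel Q T) (h : IsDual A c D E)
    (hexp : ∀ (i j : ℤ), ∀ x ∈ T.grM i j, x = ∑ t, T.times (D t) (T.pair (E t) x)) (d n : ℤ)
    (i : ℕ) : chowProduct T d n i = ⊥ ↔ ∀ t, chow T d (n - ((A.dim : ℤ) - c t)) i = ⊥ := by
  classical
  constructor
  · intro h0 t
    rw [Submodule.eq_bot_iff]
    intro y hy
    have h1 := times_mem_chow hT h t hy
    rw [h0, Submodule.mem_bot] at h1
    have h2 := dualpair hT h t t y
    rw [h1, map_zero, if_pos rfl] at h2
    exact h2.symm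
  · intro h0
    rw [Submodule.eq_bot_iff]
    intro x hx
    rw [hexp _ _ x hx]
    refine Finset.sum_eq_zero fun t _ => ?_
    have h1 := pair_mem_chow hT h hx t
    rw [h0 t, Submodule.mem_bot] at h1
    rw [h1, map_zero]

theorem finite_component (hT : IsRel Q T) (h : IsDual A c D E)
    (hexp : ∀ (i j : ℤ), ∀ x ∈ T.grM i j, x = ∑ t, T.times (D t) (T.pair (E t) x)) (d n : ℤ)
    (i : ℕ) (hfin : FiniteDimensional ℚ (chowProduct T d n i)) (t : J) :
    FiniteDimensional ℚ (chow T d (n - ((A.dim : ℤ) - c t)) i) := by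
  let φ : chow T d (n - ((A.dim : ℤ) - c t)) i →ₗ[ℚ] chowProduct T d n i :=
    { toFun := fun y => ⟨T.times (D t) y, times_mem_chow hT h t y.2⟩
      map_add' := fun x y => Subtype.ext (map_add _ _ _)
      map_smul' := fun a x => Subtype.ext (map_smul _ _ _) }
  refine FiniteDimensional.of_injective φ ?_
  classical
  intro x y hxy
  have h1 : T.times (D t) (x : T.N) = T.times (D t) (y : T.N) := congrArg Subtype.val hxy
  have h2 := dualpair hT h t t (x : T.N)
  have h3 := dualpair hT h t t (y : T.N)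
  rw [if_pos rfl] at h2 h3
  exact Subtype.ext (by rw [← h2, ← h3, h1])

/-- The Euler characteristic of a family of spaces. -/
noncomputable def euler {W : Type} [AddCommGroup W] [Module ℚ W] (G : ℕ → Submodule ℚ W) : ℤ :=
  ∑ᶠ i : ℕ, (-1) ^ i * (finrank ℚ (G i) : ℤ)

theorem euler_eq {W : Type} [AddCommGroup W] [Module ℚ W] (G : ℕ → Submodule ℚ W) {S : Finset ℕ}
    (hS : {i | G i ≠ ⊥} ⊆ (S : Set ℕ)) : euler G = ∑ i ∈ S, (-1) ^ i * (finrank ℚ (G i) : ℤ) := by
  refine finsum_eq_sum_of_support_subset _ ?_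
  intro i hi
  apply hS
  intro h0
  apply hi
  change (-1) ^ i * (finrank ℚ (G i) : ℤ) = 0
  rw [h0, finrank_bot]
  simp

theorem formula_iff {W : Type} [AddCommGroup W] [Module ℚ W] (hQ : 1 < Q)
    (G : ℕ → Submodule ℚ W) (m : ℂ →₀ ℤ) (n : ℤ) :
    Formula G (zeta Q m) n ↔ (∀ i, FiniteDimensional ℚ (G i)) ∧ {i | G i ≠ ⊥}.Finite ∧
      m ((Q : ℂ) ^ n) = euler G := by
  rw [Formula, zeta_order hQ]
  refine and_congr_right fun _ => and_congr_right fun _ => ?_
  rw [WithTop.coe_inj, neg_inj]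
  rfl

theorem euler_product (hT : IsRel Q T) (h : IsDual A c D E)
    (hexp : ∀ (i j : ℤ), ∀ x ∈ T.grM i j, x = ∑ t, T.times (D t) (T.pair (E t) x)) (d n : ℤ)
    (hfin : ∀ t i, FiniteDimensional ℚ (chow T d (n - ((A.dim : ℤ) - c t)) i))
    (hsupp : ∀ t, {i | chow T d (n - ((A.dim : ℤ) - c t)) i ≠ ⊥}.Finite) :
    {i | chowProduct T d n i ≠ ⊥}.Finite ∧
    euler (chowProduct T d n) = ∑ t, euler (chow T d (n - ((A.dim : ℤ) - c t))) := by
  classical
  have hU : {i | chowProduct T d n i ≠ ⊥} ⊆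
      ⋃ t, {i | chow T d (n - ((A.dim : ℤ) - c t)) i ≠ ⊥} := by
    intro i hi
    by_contra hcon
    apply hi
    rw [chowProduct_eq_bot hT h hexp]
    intro t
    by_contra ht
    exact hcon (Set.mem_iUnion.2 ⟨t, ht⟩)
  have hUfin : (⋃ t, {i | chow T d (n - ((A.dim : ℤ) - c t)) i ≠ ⊥}).Finite :=
    Set.finite_iUnion hsupp
  refine ⟨hUfin.subset hU, ?_⟩
  rw [euler_eq _ (S := hUfin.toFinset) (by rw [Set.Finite.coe_toFinset]; exact hU)]
  have h1 : ∀ t, euler (chow T d (n - ((A.dim : ℤ) - c t))) = ∑ i ∈ hUfin.toFinset,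
      (-1) ^ i * (finrank ℚ (chow T d (n - ((A.dim : ℤ) - c t)) i) : ℤ) := by
    intro t
    refine euler_eq _ ?_
    rw [Set.Finite.coe_toFinset]
    exact Set.subset_iUnion (fun t => {i | chow T d (n - ((A.dim : ℤ) - c t)) i ≠ ⊥}) t
  rw [Finset.sum_congr rfl fun t _ => h1 t, Finset.sum_comm]
  refine Finset.sum_congr rfl fun i _ => ?_
  haveI : ∀ t, FiniteDimensional ℚ (chow T d (n - ((A.dim : ℤ) - c t)) i) := fun t => hfin t i
  rw [(decomp hT h hexp d n i).finrank_eq, Module.finrank_pi_fintype, Nat.cast_sum,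
    Finset.mul_sum]

end groups

section main

variable {A : AbelianData ℂ} {J : Type} [Fintype J] {c : J → ℕ} {D E : J → A.CH} {Q : ℕ}
  {T : RelData A}

/-- The first part. -/
theorem formula_product (hQ : 1 < Q) (hT : IsRel Q T) (h : IsDual A c D E)
    (hexp : ∀ (i j : ℤ), ∀ x ∈ T.grM i j, x = ∑ t, T.times (D t) (T.pair (E t) x))
    {m m' : ℂ →₀ ℤ} (d n : ℤ)
    (hm : m' ((Q : ℂ) ^ n) = ∑ t, m ((Q : ℂ) ^ (n - ((A.dim : ℤ) - c t))))
    (hU : ∀ k : ℕ, k ≤ A.dim → Formula (chow T d (n - k)) (zeta Q m) (n - k)) :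
    Formula (chowProduct T d n) (zeta Q m') n := by
  have h1 : ∀ t, Formula (chow T d (n - ((A.dim : ℤ) - c t))) (zeta Q m)
      (n - ((A.dim : ℤ) - c t)) := by
    intro t
    have h2 := h.le t
    have h3 := hU (A.dim - c t) (Nat.sub_le _ _)
    have h4 : (((A.dim - c t : ℕ) : ℤ)) = (A.dim : ℤ) - c t := by omega
    rwa [h4] at h3
  have h2 := fun t => (formula_iff hQ _ m _).1 (h1 t)
  obtain ⟨h3, h4⟩ := euler_product hT h hexp d n (fun t => (h2 t).1) (fun t => (h2 t).2.1)
  rw [formula_iff hQ]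
  refine ⟨fun i => ?_, h3, ?_⟩
  · haveI : ∀ t, FiniteDimensional ℚ (chow T d (n - ((A.dim : ℤ) - c t)) i) := fun t => (h2 t).1 i
    exact (decomp hT h hexp d n i).symm.finiteDimensional
  · rw [hm, h4]
    exact Finset.sum_congr rfl fun t _ => (h2 t).2.2

/-- The second part. -/
theorem formula_factor (hQ : 1 < Q) (hT : IsRel Q T) (h : IsDual A c D E) (h0 : ∃ t, c t = 0)
    (hexp : ∀ (i j : ℤ), ∀ x ∈ T.grM i j, x = ∑ t, T.times (D t) (T.pair (E t) x))
    {m m' : ℂ →₀ ℤ} (d : ℤ)
    (hm : ∀ n : ℤ, m' ((Q : ℂ) ^ n) = ∑ t, m ((Q : ℂ) ^ (n - ((A.dim : ℤ) - c t))))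
    (hd : HasDimension T Q d m)
    (hAU : ∀ n : ℤ, Formula (chowProduct T d n) (zeta Q m') n) (n : ℤ) :
    Formula (chow T d n) (zeta Q m) n := by
  classical
  have hbot : ∀ n : ℤ, d < n → Formula (chow T d n) (zeta Q m) n := by
    intro n hn
    obtain ⟨h1, h2⟩ := hd n hn
    rw [formula_iff hQ]
    refine ⟨fun i => ?_, ?_, ?_⟩
    · rw [h2 i]
      infer_instance
    · have h3 : {i | chow T d n i ≠ ⊥} = ∅ := by
        ext i
        simp [h2 i]
      rw [h3]
      exact Set.finite_empty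
    · rw [h1, euler_eq _ (S := ∅) (by
        intro i hi
        exact absurd (h2 i) hi), Finset.sum_empty]
  have hind : ∀ (N : ℕ) (n : ℤ), d < n + N → Formula (chow T d n) (zeta Q m) n := by
    intro N
    induction N with
    | zero =>
      intro n hn
      exact hbot n (by simpa using hn)
    | succ N ih =>
      intro n hn
      have hup : ∀ n' : ℤ, n < n' → (∀ i, FiniteDimensional ℚ (chow T d n' i)) ∧
          {i | chow T d n' i ≠ ⊥}.Finite ∧ m ((Q : ℂ) ^ n') = euler (chow T d n') := by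
        intro n' hn'
        exact (formula_iff hQ _ m _).1 (ih n' (by push_cast at hn; omega))
      obtain ⟨t₀, ht₀⟩ := h0
      have hidx : ∀ t, n + A.dim - ((A.dim : ℤ) - c t) = n + c t := fun t => by ring
      obtain ⟨g1, g2, g3⟩ := (formula_iff hQ _ m' _).1 (hAU (n + A.dim))
      have hfin0 : ∀ i, FiniteDimensional ℚ (chow T d n i) := by
        intro i
        have h1 := finite_component hT h hexp d (n + A.dim) i (g1 i) t₀
        rw [hidx, ht₀, Nat.cast_zero, add_zero] at h1
        exact h1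
      have hsupp0 : {i | chow T d n i ≠ ⊥}.Finite := by
        refine g2.subset ?_
        intro i hi h1
        apply hi
        have h2 := (chowProduct_eq_bot hT h hexp d (n + A.dim) i).1 h1 t₀
        rwa [hidx, ht₀, Nat.cast_zero, add_zero] at h2
      have hall : ∀ t, (∀ i, FiniteDimensional ℚ (chow T d (n + A.dim - ((A.dim : ℤ) - c t)) i)) ∧
          {i | chow T d (n + A.dim - ((A.dim : ℤ) - c t)) i ≠ ⊥}.Finite := by
        intro t
        rw [hidx]
        rcases Nat.eq_zero_or_pos (c t) with h1 | h1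
        · rw [h1, Nat.cast_zero, add_zero]
          exact ⟨hfin0, hsupp0⟩
        · have h2 := hup (n + c t) (by omega)
          exact ⟨h2.1, h2.2.1⟩
      obtain ⟨-, h4⟩ := euler_product hT h hexp d (n + A.dim) (fun t => (hall t).1)
        (fun t => (hall t).2)
      rw [formula_iff hQ]
      refine ⟨hfin0, hsupp0, ?_⟩
      have h5 : ∑ t, (m ((Q : ℂ) ^ (n + A.dim - ((A.dim : ℤ) - c t))) -
          euler (chow T d (n + A.dim - ((A.dim : ℤ) - c t)))) = 0 := by
        rw [Finset.sum_sub_distrib, ← hm, ← h4, g3, sub_self]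
      have h6 : ∀ t, m ((Q : ℂ) ^ (n + A.dim - ((A.dim : ℤ) - c t))) -
          euler (chow T d (n + A.dim - ((A.dim : ℤ) - c t))) =
            if c t = 0 then m ((Q : ℂ) ^ n) - euler (chow T d n) else 0 := by
        intro t
        rw [hidx]
        rcases Nat.eq_zero_or_pos (c t) with h1 | h1
        · rw [if_pos h1, h1, Nat.cast_zero, add_zero]
        · rw [if_neg h1.ne', (hup (n + c t) (by omega)).2.2, sub_self]
      rw [Finset.sum_congr rfl fun t _ => h6 t, ← Finset.sum_filter, Finset.sum_const,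
        nsmul_eq_mul, mul_eq_zero] at h5
      rcases h5 with h5 | h5
      · exfalso
        have h7 : t₀ ∈ Finset.univ.filter fun t => c t = 0 :=
          Finset.mem_filter.2 ⟨Finset.mem_univ _, ht₀⟩
        rw [Nat.cast_eq_zero, Finset.card_eq_zero] at h5
        rw [h5] at h7
        exact absurd h7 (Finset.notMem_empty _)
      · exact sub_eq_zero.1 h5
  exact hind (d - n + 1).toNat n (by omega)

variable {I : Type} {q : ℕ} {f : I → ℤ[X]} {K : I → Type} [∀ i, Field (K i)] (hq : 1 < q)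
  (hR : NoRel f q (Independent K))

include hq hR in
/-- **The formula of Soule for products with abelian varieties.** -/
theorem zetaTimes : ZetaTimes K q f := by
  intro A s hA T hT hpure hind m m' hm hm' d
  obtain ⟨r, b, α, hb, hα, hα0, hgood⟩ := Pool.Agent.Y1.CT.L.exists_good_basis hq hR hA
  have hs := hA.pos
  have hQ1 : 1 < q ^ s := Nat.one_lt_pow hs.ne' hq
  have hX1 : (Polynomial.X - 1 : ℚ[X]) ≠ 0 := by
    have := Polynomial.X_sub_C_ne_zero (1 : ℚ)
    rwa [map_one] at this
  have h1 : ∀ t (c : ℤ), α t = ((q ^ s : ℕ) : ℂ) ^ c →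
      ∃ l : ℕ, α t = ((q ^ s : ℕ) : ℂ) ^ l ∧ b t ∈ NK A l := by
    intro t c hc
    exact hgood _ hX1 (root_one hR) 1
      (by rw [map_sub, aeval_X, map_one, sub_self]) t c (by rw [mul_one]; exact hc)
  obtain ⟨J, hJ, c, D, E', hdual, hD, hE, hN⟩ := exists_dual hA hQ1 b α hb h1
  have hN' := span_dual hA hQ1 b α hb h1 hdual hE hN
  have hEN : ∀ j, A.cl (E' j) ∈ NK A (A.dim - c j) := by
    have key : ∀ (l : ℕ) (z : A.CH), z ∈ Submodule.span ℚ {y | A.IsDivisorProduct l y} →
        A.cl z ∈ NK A l := by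
      intro l z hz
      induction hz using Submodule.span_induction with
      | mem z hz => exact Submodule.subset_span ⟨z, hz, rfl⟩
      | zero => rw [map_zero]; exact Submodule.zero_mem _
      | add x y _ _ hx hy => rw [map_add]; exact Submodule.add_mem _ hx hy
      | smul c x _ hx => rw [cl_smul]; exact Submodule.smul_mem _ _ hx
    exact fun j => key _ _ (hE j)
  have hexp : ∀ (i j : ℤ), ∀ x ∈ T.grM i j, x = ∑ t, T.times (D t) (T.pair (E' t) x) := by
    intro i j x hx
    obtain ⟨χ, hχ, hrank, hkillψ⟩ := hind i j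
    obtain ⟨P, hP, hmix⟩ := exists_kill b α hb hα hα0 χ ((((q ^ s : ℕ) : ℚ)) ^ j) (by
      intro ρ hρ t ht
      obtain ⟨l, -, hl⟩ := hgood χ hχ hrank ρ hρ t j (by rw [ht]; push_cast; rfl)
      exact ⟨l, hl⟩)
    have hV1 : ∀ m ∈ invSub T (q ^ s) i j, T.frobM m ∈ invSub T (q ^ s) i j :=
      fun m hm => inv_frob hT hm
    have hV2 : ∀ m ∈ invSub T (q ^ s) i j, T.act A.frob (T.frobM m) =
        ((q ^ s : ℕ) : ℚ) ^ j • m := fun m hm => hm.2
    have hV : ∀ m ∈ invSub T (q ^ s) i j, T.act A.frob m ∈ invSub T (q ^ s) i j := fun m hm =>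
      stable_of _ T.frobM _ _ hV1 hV2 χ (coeff_ne hrank) hkillψ hm
    have hRr : ∀ m ∈ invSub T (q ^ s) i j,
        aeval (T.act A.frob) (rev χ (((q ^ s : ℕ) : ℚ) ^ j)) m = 0 :=
      fun m hm => aeval_rev_op _ T.frobM _ _ hV1 hV2 χ hkillψ hm
    exact rel_core hA hT hdual P _ hP (fun w => act_proj_mix hA hdual hN (hmix w)) _ hV hRr
      (hpure i j x hx)
  have hc0 : ∃ t, c t = 0 := exists_codim hA hQ1 b α hb h1 hN (Nat.zero_le _)
  have hmul := fun n : ℤ => mult_product hA hQ1 b α hb hgood h1 hdual hEN hN' hm hm' n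
  exact ⟨fun n hU => formula_product hQ1 hT hdual hexp d n (hmul n) hU,
    fun hd hAU n => formula_factor hQ1 hT hdual hc0 hexp d hmul hd hAU n⟩

end main

end Pool.Agent.Y156.Z
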